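import Pool.Agent.Y282.WD.Stm

/-!
# Local boundedness relative to the integer orbit (job WD-SCH of helper282)
-/

set_option autoImplicit false

open Filter Topology Metric Set

namespace Pool.Agent.Y514.WD

open Pool.Agent.H384R2.Fatou Pool.Agent.H723R2.LSW
open Pool.Agent.Y282.WD

theorem sch : S_SCH := by
  intro N hw K hK hKU
  set U := FatouComponent f₀ (N : ℂ) with hUdef
  have hNF : (N : ℂ) ∈ FatouSet f₀ := int_mem_fatou N
  have hNU : (N : ℂ) ∈ U := mem_connectedComponentIn hNF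
  have hUo : IsOpen U := component_isOpen f₀ N
  have hUF : U ⊆ FatouSet f₀ := connectedComponentIn_subset _ _
  have hinv : ∀ (i : ℕ), ∀ z ∈ U, f₀^[i] z ∈ FatouSet f₀ := by
    intro i z hz
    exact fatou_forward_iter f₀_open (hUF hz) i
  set Ni : ℕ → ℤ := fun i => T^[i] N with hNi
  have htend : Tendsto (fun i => |((Ni i : ℤ) : ℝ)|) atTop atTop := wild_tendsto hw
  set g : ℕ → ℂ → ℂ := fun i z => f₀^[i] z - ((Ni i : ℤ) : ℂ) with hg
  have hgd : ∀ i, Differentiable ℂ (g i) := fun i =>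
    (f₀_differentiable.iterate _).sub_const _
  -- omitted values
  have homit : ∀ᶠ i in atTop, ∃ A B : ℝ, 5 ≤ A ∧ A ≤ 6 ∧ -6 ≤ B ∧ B ≤ -5 ∧
      (∀ z ∈ U, g i z ≠ A) ∧ (∀ z ∈ U, g i z ≠ B) := by
    filter_upwards [htend.eventually (eventually_ge_atTop 10)] with i hi
    have hi' : 10 ≤ |Ni i| := by exact_mod_cast hi
    have hne1 : Ni i + 5 ≠ -2 := by
      intro h
      have : Ni i = -7 := by omega
      rw [this] at hi'; norm_num at hi'
    have hne2 : Ni i - 6 ≠ -2 := by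
      intro h
      have : Ni i = 4 := by omega
      rw [this] at hi'; norm_num at hi'
    obtain ⟨x, hx1, hx2, hx3⟩ := jul_all hne1
    obtain ⟨y, hy1, hy2, hy3⟩ := jul_all hne2
    push_cast at hx1 hx2 hy1 hy2
    refine ⟨x - Ni i, y - Ni i, by linarith, by linarith, by linarith, by linarith, ?_, ?_⟩
    · intro z hz h
      apply hx3
      have : f₀^[i] z = (x : ℂ) := by
        rw [hg] at h
        push_cast at h
        linear_combination h
      rw [← this]
      exact hinv i z hz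
    · intro z hz h
      apply hy3
      have : f₀^[i] z = (y : ℂ) := by
        rw [hg] at h
        push_cast at h
        linear_combination h
      rw [← this]
      exact hinv i z hz
  -- local boundedness
  have hloc : ∀ (c : ℂ) (r : ℝ), 0 < r → ball c r ⊆ U → ∀ M : ℝ, (∀ᶠ i in atTop, ‖g i c‖ ≤ M) →
      ∀ᶠ i in atTop, ∀ z ∈ ball c (r / 2),
        ‖g i z‖ ≤ 6 * Real.exp (Real.pi * Real.exp (Real.pi * ((M + 1) + 386))) + 1 := by
    intro c r hr hsub M hM
    filter_upwards [hM, homit] with i hi ⟨A, B, hA1, hA2, hB1, hB2, hA, hB⟩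
    exact schottky_step hr (hgd i).differentiableOn hA1 hA2 hB1 hB2
      (fun w hw => hA w (hsub hw)) (fun w hw => hB w (hsub hw)) hi
  set S : Set ℂ := {z | z ∈ U ∧ ∃ M : ℝ, ∀ᶠ i in atTop, ‖g i z‖ ≤ M} with hS
  have hSo : IsOpen S := by
    rw [Metric.isOpen_iff]
    rintro z ⟨hzU, M, hM⟩
    obtain ⟨r, hr, hsub⟩ := Metric.isOpen_iff.1 hUo z hzU
    refine ⟨r / 2, by linarith, fun w hw => ⟨hsub (ball_subset_ball (by linarith) hw), _,
      (hloc z r hr hsub M hM).mono fun i hi => hi w hw⟩⟩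
  have hNS : (N : ℂ) ∈ S := by
    refine ⟨hNU, 0, Filter.Eventually.of_forall fun i => ?_⟩
    have : g i (N : ℂ) = 0 := by
      rw [hg]
      simp only
      rw [f₀_iter, sub_self]
    rw [this, norm_zero]
  have hsubS : U ⊆ S := by
    have hpre : IsPreconnected U := isPreconnected_connectedComponentIn
    apply hpre.subset_of_closure_inter_subset hSo ⟨N, hNU, hNS⟩
    rintro z ⟨hzc, hzU⟩
    obtain ⟨r, hr, hsub⟩ := Metric.isOpen_iff.1 hUo z hzU
    obtain ⟨w, ⟨hwU, M, hM⟩, hzw⟩ := Metric.mem_closure_iff.1 hzc (r / 4) (by linarith)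
    refine ⟨hzU, _, (hloc w (r / 2) (by linarith) ?_ M hM).mono fun i hi => hi z ?_⟩
    · refine Subset.trans (ball_subset_ball' ?_) hsub
      rw [dist_comm] at hzw
      linarith
    · rw [mem_ball]; linarith
  -- finite cover
  refine hK.induction_on (p := fun K => ∃ M : ℝ, ∀ᶠ j : ℕ in atTop, ∀ z ∈ K,
    ‖f₀^[j] z - ((T^[j] N : ℤ) : ℂ)‖ ≤ M) ?_ ?_ ?_ ?_
  · exact ⟨0, Eventually.of_forall fun j z hz => absurd hz (notMem_empty z)⟩
  · rintro s t hst ⟨M, hM⟩
    exact ⟨M, hM.mono fun j hj z hz => hj z (hst hz)⟩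
  · rintro s t ⟨M, hM⟩ ⟨M', hM'⟩
    refine ⟨max M M', ?_⟩
    filter_upwards [hM, hM'] with j hj hj'
    rintro z (hz | hz)
    · exact (hj z hz).trans (le_max_left _ _)
    · exact (hj' z hz).trans (le_max_right _ _)
  · intro z hz
    have hzU := hKU hz
    obtain ⟨-, M, hM⟩ := hsubS hzU
    obtain ⟨r, hr, hsub⟩ := Metric.isOpen_iff.1 hUo z hzU
    exact ⟨ball z (r / 2), mem_nhdsWithin_of_mem_nhds (ball_mem_nhds z (by linarith)), _,
      hloc z r hr hsub M hM⟩

end Pool.Agent.Y514.WD
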